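import Mathlib

set_option autoImplicit false

namespace Pool.Agent.Results.MP_44775e_co.Counter

open Finset

/-- `⌈n/k⌉`, the number of parts. -/
def parts (n k : ℕ) : ℕ := (n + k - 1) / k

/-- `G` with `m` isolated vertices added and every fibre of `P` turned into a clique. -/
def fill {n m r : ℕ} (G : SimpleGraph (Fin n)) (P : Fin n ⊕ Fin m → Fin r) :
    SimpleGraph (Fin n ⊕ Fin m) where
  Adj x y := x ≠ y ∧ (P x = P y ∨ ∃ u v, x = Sum.inl u ∧ y = Sum.inl v ∧ G.Adj u v)
  symm := ⟨by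
    rintro x y ⟨h, h' | ⟨u, v, rfl, rfl, h'⟩⟩
    · exact ⟨h.symm, Or.inl h'.symm⟩
    · exact ⟨h.symm, Or.inr ⟨v, u, rfl, rfl, h'.symm⟩⟩⟩
  loopless := ⟨fun _ h => h.1 rfl⟩

/-- After adding `k⌈n/k⌉ - n` isolated vertices, every partition into `⌈n/k⌉` parts of size `k`
gives a `k`-colourable graph. -/
def StronglyColorable {n : ℕ} (G : SimpleGraph (Fin n)) (k : ℕ) : Prop :=
  ∀ P : Fin n ⊕ Fin (k * parts n k - n) → Fin (parts n k),
    (∀ i, (univ.filter (fun x => P x = i)).card = k) → (fill G P).Colorable k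

/-- The strong chromatic number. -/
noncomputable def strongChi {n : ℕ} (G : SimpleGraph (Fin n)) : ℕ :=
  sInf {k | 1 ≤ k ∧ StronglyColorable G k}

/-- The biclique number: the largest `a + b` with `a, b ≥ 1` and `K_{a,b}` a subgraph of `G`,
and `1` if there is no edge. -/
noncomputable def bicliqueNumber {n : ℕ} (G : SimpleGraph (Fin n)) : ℕ :=
  max 1 (sSup {s | ∃ A B : Finset (Fin n), A.Nonempty ∧ B.Nonempty ∧ Disjoint A B ∧
    (∀ a ∈ A, ∀ b ∈ B, G.Adj a b) ∧ s = A.card + B.card})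

def cls (v : Fin 21) : Fin 7 :=
  ([0, 0, 0, 2, 2, 2, 3, 3, 1, 1, 1, 3, 4, 4, 4, 5, 5, 5, 6, 6, 6] : List (Fin 7)).getD v.1 0

def G0 : SimpleGraph (Fin 21) where
  Adj u v := cls u + 1 = cls v ∨ cls v + 1 = cls u
  symm := ⟨fun _ _ h => h.symm⟩
  loopless := ⟨by decide⟩

instance : DecidableRel G0.Adj := fun u v =>
  inferInstanceAs (Decidable (cls u + 1 = cls v ∨ cls v + 1 = cls u))

theorem bic_le : bicliqueNumber G0 ≤ 9 := by
  refine max_le (by norm_num) (csSup_le' ?_)
  rintro s ⟨A, B, ⟨a, ha⟩, ⟨b, hb⟩, -, h, rfl⟩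
  have h3 : ∀ i : Fin 7, (univ.filter (fun v => cls v = i)).card = 3 := by decide
  have h6 : ∀ u : Fin 21, (univ.filter (fun v => G0.Adj u v)).card = 6 := by decide
  have hA : A.card ≤ 6 := by
    rw [← h6 b]; exact card_le_card (fun x hx => by simpa using (h x hx b hb).symm)
  have hB : B.card ≤ 6 := by
    rw [← h6 a]; exact card_le_card (fun x hx => by simpa using h a ha x hx)
  by_cases h1 : ∀ x ∈ A, cls x = cls a
  · have : A.card ≤ 3 := by
      rw [← h3 (cls a)]; exact card_le_card (fun x hx => by simpa using h1 x hx)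
    omega
  · push Not at h1
    obtain ⟨x, hx, hxa⟩ := h1
    have key : ∀ i j p q : Fin 7, i ≠ j → (i + 1 = p ∨ p + 1 = i) → (j + 1 = p ∨ p + 1 = j) →
        (i + 1 = q ∨ q + 1 = i) → (j + 1 = q ∨ q + 1 = j) → p = q := by decide
    have : B.card ≤ 3 := by
      rw [← h3 (cls b)]
      refine card_le_card (fun y hy => ?_)
      simpa using key _ _ _ _ hxa (h x hx y hy) (h a ha y hy) (h x hx b hb) (h a ha b hb)
    omega

theorem not_col_of_clique {m r k : ℕ} (P : Fin 21 ⊕ Fin m → Fin r) (S : Finset (Fin 21))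
    (hS : ∀ u ∈ S, ∀ v ∈ S, u ≠ v → P (Sum.inl u) = P (Sum.inl v) ∨ G0.Adj u v)
    (hk : k < S.card) : ¬ (fill G0 P).Colorable k := by
  rintro ⟨c⟩
  have : S.card ≤ (univ : Finset (Fin k)).card := by
    refine card_le_card_of_injOn (fun v => c (Sum.inl v)) (fun _ _ => mem_univ _) ?_
    intro u hu v hv huv
    by_contra hne
    refine c.valid (v := Sum.inl u) (w := Sum.inl v) ⟨by simpa using hne, ?_⟩ huv
    rcases hS u hu v hv hne with h | h
    · exact Or.inl h
    · exact Or.inr ⟨u, v, rfl, rfl, h⟩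
  simp at this
  omega

def blk (v : Fin 21) : Fin 3 := ([1, 0, 1, 0, 2, 1, 2] : List (Fin 3)).getD (cls v).1 0

theorem not_col_of_blocks {m k : ℕ} (P : Fin 21 ⊕ Fin m → Fin 3)
    (hP : ∀ v, P (Sum.inl v) = blk v) (hk : ∀ i, (univ.filter (fun x => P x = i)).card = k)
    (hm : m < k) : ¬ (fill G0 P).Colorable k := by
  rintro ⟨c⟩
  obtain ⟨i, hi⟩ : ∃ i : Fin k, ∀ j, c (Sum.inr j) ≠ i := by
    by_contra h
    push Not at h
    have := Fintype.card_le_of_surjective (fun j => c (Sum.inr j)) h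
    simp at this
    omega
  have hs : ∀ p : Fin 3, ∃ v, blk v = p ∧ c (Sum.inl v) = i := by
    intro p
    have himg : (univ.filter (fun x => P x = p)).image c = univ := by
      apply eq_univ_of_card
      rw [card_image_of_injOn, hk, Fintype.card_fin]
      intro x hx y hy hxy
      by_contra hne
      simp only [coe_filter, mem_univ, true_and, Set.mem_setOf_eq] at hx hy
      exact c.valid (v := x) (w := y) ⟨hne, Or.inl (hx.trans hy.symm)⟩ hxy
    have hi' : i ∈ (univ.filter (fun x => P x = p)).image c := by rw [himg]; exact mem_univ _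
    obtain ⟨x, hx, hxi⟩ := mem_image.mp hi'
    rcases x with v | j
    · exact ⟨v, by rw [← hP]; simpa using hx, hxi⟩
    · exact absurd hxi (hi j)
  obtain ⟨x, hx, hxi⟩ := hs 0
  obtain ⟨y, hy, hyi⟩ := hs 1
  obtain ⟨z, hz, hzi⟩ := hs 2
  have key : ∀ x y z : Fin 21, blk x = 0 → blk y = 1 → blk z = 2 →
      G0.Adj x y ∨ G0.Adj y z ∨ G0.Adj x z := by decide +kernel
  have fin : ∀ u v, G0.Adj u v → c (Sum.inl u) = i → c (Sum.inl v) = i → False := by
    intro u v h h1 h2
    exact c.valid (v := Sum.inl u) (w := Sum.inl v)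
      ⟨by simpa using h.ne, Or.inr ⟨u, v, rfl, rfl, h⟩⟩ (h1.trans h2.symm)
  rcases key x y z hx hy hz with h | h | h
  · exact fin _ _ h hxi hyi
  · exact fin _ _ h hyi hzi
  · exact fin _ _ h hxi hzi

def pos {m : ℕ} : Fin 21 ⊕ Fin m → ℕ
  | Sum.inl v => v.1
  | Sum.inr j => 21 + j.1

def byPos (k m r : ℕ) [NeZero r] (x : Fin 21 ⊕ Fin m) : Fin r := Fin.ofNat r (pos x / k)

theorem not_strong (k : ℕ) (h1 : 1 ≤ k) (h2 : k ≤ 10) : ¬ StronglyColorable G0 k := by
  intro h
  interval_cases k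
  · exact not_col_of_clique (byPos 1 0 21) {0, 8} (by decide) (by decide) (h _ (by decide))
  · exact not_col_of_clique (byPos 2 1 11) {0, 1, 8} (by decide) (by decide) (h _ (by decide))
  · exact not_col_of_clique (byPos 3 0 7) {0, 1, 2, 8} (by decide) (by decide) (h _ (by decide))
  · exact not_col_of_clique (byPos 4 3 6) {0, 1, 2, 3, 8} (by decide) (by decide)
      (h _ (by decide))
  · exact not_col_of_clique (byPos 5 4 5) {0, 1, 2, 3, 4, 8} (by decide) (by decide)
      (h _ (by decide))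
  · exact not_col_of_clique (byPos 6 3 4) {0, 1, 2, 3, 4, 5, 8} (by decide) (by decide)
      (h _ (by decide))
  · exact not_col_of_clique (byPos 7 0 3) {0, 1, 2, 3, 4, 5, 8, 9, 10} (by decide) (by decide)
      (h _ (by decide))
  · exact not_col_of_clique (byPos 8 3 3) {0, 1, 2, 3, 4, 5, 8, 9, 10} (by decide) (by decide)
      (h _ (by decide))
  · exact not_col_of_blocks (m := 6) (Sum.elim blk ![0, 0, 0, 2, 2, 2]) (fun _ => rfl)
      (by decide) (by decide) (h _ (by decide))
  · exact not_col_of_blocks (m := 9) (Sum.elim blk ![0, 0, 0, 0, 1, 2, 2, 2, 2]) (fun _ => rfl)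
      (by decide) (by decide) (h _ (by decide))

theorem result :
    ∃ (n : ℕ) (G : SimpleGraph (Fin n)), bicliqueNumber G + 2 ≤ strongChi G := by
  refine ⟨21, G0, ?_⟩
  have hne : {k | 1 ≤ k ∧ StronglyColorable G0 k}.Nonempty := by
    refine ⟨21, by norm_num, fun P _ => ?_⟩
    have := (fill G0 P).colorable_of_fintype
    simpa [parts] using this
  have hm := Nat.sInf_mem hne
  have := bic_le
  by_contra hlt
  exact not_strong _ hm.1 (by unfold strongChi at hlt; omega) hm.2

end Pool.Agent.Results.MP_44775e_co.Counter
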